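import Pool.Agent.Helper82.DG.Base

/-!
# The place of a neighbour of a vertex in a cell of a kite
-/

set_option autoImplicit false

namespace Pool.Agent.Helper82.DG

open Pool.Agent.Helper18.RAC Complex

variable {V : Type*}

section flips

variable {H : SimpleGraph V} {X Y : V → ℝ} {E F a b : ℝ} {u u' w w' v v' : V}

/-- rescaling of the second coordinate -/
theorem ADraw_scaleY (hd : ADraw H X Y E F) {c : ℝ} (hc : c ≠ 0) :
    ADraw H X (fun v => Y v / c) E (F * c ^ 2) where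
  E_pos := hd.E_pos
  F_pos := mul_pos hd.F_pos (by positivity)
  vtx := fun u v w huv h1 h2 t h3 h4 h5 h6 => by
    refine hd.vtx u v w huv h1 h2 t h3 h4 h5 ?_
    have h7 : Y w / c * c = ((1 - t) * (Y u / c) + t * (Y v / c)) * c := by
      rw [h6]
    have e1 : ∀ r : ℝ, r / c * c = r := fun r => div_mul_cancel₀ r hc
    have h8 := e1 (Y w)
    have h9 := e1 (Y u)
    have h10 := e1 (Y v)
    rw [h8] at h7
    rw [h7]
    linear_combination (1 - t) * h9 + t * h10
  crs := fun u v x y huv hxy hne s t h1 h2 h3 h4 h5 h6 => by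
    have e1 : ∀ r : ℝ, r / c * c = r := fun r => div_mul_cancel₀ r hc
    have hu := e1 (Y u)
    have hv := e1 (Y v)
    have hx := e1 (Y x)
    have hy := e1 (Y y)
    have h7 := hd.crs u v x y huv hxy hne s t h1 h2 h3 h4 h5 (by
      rw [← hu, ← hv, ← hx, ← hy]
      linear_combination c * h6)
    rw [← h7]
    have e2 : F * c ^ 2 * ((Y v / c - Y u / c) * (Y y / c - Y x / c)) =
        F * ((Y v - Y u) * (Y y - Y x)) := by
      field_simp
    rw [e2]

theorem KN_flipY (hk : KN H X Y a b u u' w w') (hs : H.Adj u' w') :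
    KN H X (fun v => Y v / (-b)) a (1 / b) u u' w' w where
  a_pos := hk.a_pos
  b_pos := one_div_pos.2 hk.b_pos
  Xu := hk.Xu
  Yu := by simp [hk.Yu]
  Xu' := hk.Xu'
  Yu' := by simp [hk.Yu']
  Xw := hk.Xw'
  Yw := by
    have := hk.b_pos.ne'
    simp only [hk.Yw']
    field_simp
  Xw' := hk.Xw
  Yw' := by
    have := hk.b_pos.ne'
    simp only [hk.Yw]
    field_simp
  uu' := hk.uu'
  ww' := hk.ww'.symm
  uw := hk.uw'
  uw' := hk.uw
  u'w := hs

theorem KN_flipX (hk : KN H X Y a b u u' w w') (hs : H.Adj u' w') :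
    KN H (fun v => X v / (-a)) Y (1 / a) b u' u w w' :=
  (KN_flipY hk.swap hs.symm).swap

theorem pos_div_neg_iff {r c : ℝ} (hc : 0 < c) : 0 < r / (-c) ↔ r < 0 := by
  rw [div_neg, neg_pos, div_neg_iff]
  constructor
  · rintro (h | h)
    · linarith
    · exact h.1
  · intro h
    exact Or.inr ⟨h, hc⟩

theorem div_neg_neg_iff {r c : ℝ} (hc : 0 < c) : r / (-c) < 0 ↔ 0 < r := by
  rw [div_neg, neg_lt_zero, div_pos_iff]
  constructor
  · rintro (h | h)
    · exact h.1
    · linarith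
  · intro h
    exact Or.inl ⟨h, hc⟩

theorem NE_flipY (hb : 0 < b) : NE X (fun v => Y v / (-b)) v ↔ SE X Y b v := by
  unfold NE SE
  rw [pos_div_neg_iff hb]
  have e : X v + Y v / (-b) = (b * X v - Y v) / b := by
    field_simp
    ring
  rw [e, div_lt_one hb]

theorem SE_flipY (hb : 0 < b) : SE X (fun v => Y v / (-b)) (1 / b) v ↔ NE X Y v := by
  unfold NE SE
  rw [div_neg_neg_iff hb]
  have e : 1 / b * X v - Y v / (-b) = (X v + Y v) / b := by
    field_simp
    ring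
  rw [e, div_lt_div_iff_of_pos_right hb]

theorem NW_flipY (hb : 0 < b) : NW X (fun v => Y v / (-b)) a v ↔ SW X Y a b v := by
  unfold NW SW
  rw [pos_div_neg_iff hb]
  have e : a * (Y v / (-b)) - X v = (-(b * X v) - a * Y v) / b := by
    field_simp
    ring
  rw [e, div_lt_iff₀ hb]
  tauto

theorem SW_flipY (hb : 0 < b) : SW X (fun v => Y v / (-b)) a (1 / b) v ↔ NW X Y a v := by
  unfold NW SW
  rw [div_neg_neg_iff hb]
  have e : -(1 / b * X v) - a * (Y v / (-b)) = (a * Y v - X v) / b := by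
    field_simp
    ring
  have e' : a * (1 / b) = a / b := by ring
  rw [e, e', div_lt_div_iff_of_pos_right hb]
  tauto

theorem NE_swap : NE Y X v ↔ NE X Y v := by
  unfold NE
  rw [add_comm (Y v)]
  tauto

theorem SW_swap : SW Y X b a v ↔ SW X Y a b v := by
  unfold SW
  constructor
  · rintro ⟨h1, h2, h3⟩
    exact ⟨h2, h1, by linarith⟩
  · rintro ⟨h1, h2, h3⟩
    exact ⟨h2, h1, by linarith⟩

theorem NE_flipX (ha : 0 < a) : NE (fun v => X v / (-a)) Y v ↔ NW X Y a v := by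
  rw [← NE_swap, NE_flipY (X := Y) (Y := X) ha]
  rfl

theorem SE_flipX (ha : 0 < a) : SE (fun v => X v / (-a)) Y b v ↔ SW X Y a b v := by
  rw [← SW_swap, ← NW_flipY (X := Y) (Y := X) (a := b) ha]
  rfl

theorem NW_flipX (ha : 0 < a) : NW (fun v => X v / (-a)) Y (1 / a) v ↔ NE X Y v := by
  rw [← NE_swap, ← SE_flipY (X := Y) (Y := X) ha]
  rfl

end flips

section places

variable {H : SimpleGraph V} {X Y : V → ℝ} {E F a b : ℝ} {u u' w w' v v' z : V}

theorem place_NE (hd : ADraw H X Y E F) (hk : KN H X Y a b u u' w w') (hv : H.Adj v v')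
    (h : NE X Y v) :
    v' = u ∨ v' = w ∨ NE X Y v' ∨ (X v' = X v ∧ SE X Y b v') ∨ (Y v' = Y v ∧ NW X Y a v') ∨
      (1 < X v' + Y v' ∧ X v < X v' ∧ Y v < Y v' ∧ E * (X v' - X v) = F * (Y v' - Y v)) := by
  obtain ⟨hX, hY, hXY⟩ := h
  have hE := hd.E_pos
  have hF := hd.F_pos
  rcases lt_or_ge (Y v') 0 with hY' | hY'
  · obtain ⟨h1, h2⟩ := KN.lemmaA1 hd hk hv hX hY hXY hY'
    exact Or.inr (Or.inr (Or.inr (Or.inl ⟨h1, by rw [h1]; exact hX, hY', h2⟩)))
  rcases lt_or_ge (X v') 0 with hX' | hX'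
  · obtain ⟨h1, h2⟩ := KN.lemmaA1 hd.swap hk.swap hv hY hX (by linarith) hX'
    exact Or.inr (Or.inr (Or.inr (Or.inr (Or.inl ⟨h1, by rw [h1]; exact hY, hX', h2⟩))))
  rcases KN.lemmaA hd hk hv hX hY hXY with h | h | h | h | h | h
  · exact Or.inl h
  · exact Or.inr (Or.inl h)
  · exact Or.inr (Or.inr (Or.inl h))
  · linarith [h.2.1]
  · linarith [h.2.1]
  · obtain ⟨h1, s, t, hs0, hs1, ht0, ht1, hx, hy⟩ := h
    have hvu : v ≠ u := by rintro rfl; rw [hk.Yu] at hY; exact lt_irrefl _ hY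
    have hvw : v ≠ w := by rintro rfl; rw [hk.Xw] at hX; exact lt_irrefl _ hX
    have h2 := KN.cross_s hd hk hv (ne_of_left hvu hvw) hs0 hs1 ht0 ht1 hx hy
    have h3 : X v < X v' := by
      by_contra hcon
      push Not at hcon
      have h4 : E * (X v' - X v) ≤ 0 := mul_nonpos_of_nonneg_of_nonpos hE.le (by linarith)
      have h5 : 0 < F * (Y v' - Y v) := mul_pos hF (by linarith)
      linarith
    have h4 : Y v < Y v' := by
      by_contra hcon
      push Not at hcon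
      have h4 : F * (Y v' - Y v) ≤ 0 := mul_nonpos_of_nonneg_of_nonpos hF.le (by linarith)
      have h5 : 0 < E * (X v' - X v) := mul_pos hE (by linarith)
      linarith
    exact Or.inr (Or.inr (Or.inr (Or.inr (Or.inr ⟨h1, h3, h4, h2⟩))))

/-- two neighbours of a vertex on one ray -/
theorem ray (hd : ADraw H X Y E F) (h1 : H.Adj z v) (h2 : H.Adj z v') (hne : v ≠ v') {s : ℝ}
    (hs : 0 < s) (hx : X v - X z = s * (X v' - X z)) (hy : Y v - Y z = s * (Y v' - Y z)) :
    False := by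
  rcases le_total s 1 with h | h
  · exact hd.vtx z v' v h2 h1.ne' hne s hs.le h (by linarith) (by linarith)
  · have hs' : s ≠ 0 := hs.ne'
    refine hd.vtx z v v' h1 h2.ne' hne.symm s⁻¹ (inv_pos.2 hs).le (inv_le_one_of_one_le₀ h) ?_ ?_
    · have : X v' - X z = s⁻¹ * (X v - X z) := by rw [hx]; field_simp
      linarith
    · have : Y v' - Y z = s⁻¹ * (Y v - Y z) := by rw [hy]; field_simp
      linarith

theorem ray_x (hd : ADraw H X Y E F) (h1 : H.Adj z v) (h2 : H.Adj z v') (hne : v ≠ v')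
    (hx : X v = X z) (hx' : X v' = X z) (hs : 0 < (Y v - Y z) * (Y v' - Y z)) : False := by
  have h0 : Y v' - Y z ≠ 0 := by
    intro h
    rw [h, mul_zero] at hs
    exact lt_irrefl _ hs
  refine ray hd h1 h2 hne (s := (Y v - Y z) / (Y v' - Y z)) ?_ ?_ ?_
  · have : (Y v - Y z) / (Y v' - Y z) = (Y v - Y z) * (Y v' - Y z) / (Y v' - Y z) ^ 2 := by
      field_simp
    rw [this]
    exact div_pos hs (by positivity)
  · rw [hx, hx']; ring
  · field_simp

theorem ray_y (hd : ADraw H X Y E F) (h1 : H.Adj z v) (h2 : H.Adj z v') (hne : v ≠ v')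
    (hy : Y v = Y z) (hy' : Y v' = Y z) (hs : 0 < (X v - X z) * (X v' - X z)) : False :=
  ray_x hd.swap h1 h2 hne hy hy' hs

theorem ray_d (hd : ADraw H X Y E F) (h1 : H.Adj z v) (h2 : H.Adj z v') (hne : v ≠ v')
    (hp : E * (X v - X z) = F * (Y v - Y z)) (hp' : E * (X v' - X z) = F * (Y v' - Y z))
    (hs : 0 < (X v - X z) * (X v' - X z)) : False := by
  have h0 : X v' - X z ≠ 0 := by
    intro h
    rw [h, mul_zero] at hs
    exact lt_irrefl _ hs
  have hF := hd.F_pos.ne'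
  refine ray hd h1 h2 hne (s := (X v - X z) / (X v' - X z)) ?_ ?_ ?_
  · have : (X v - X z) / (X v' - X z) = (X v - X z) * (X v' - X z) / (X v' - X z) ^ 2 := by
      field_simp
    rw [this]
    exact div_pos hs (by positivity)
  · field_simp
  · have h3 : F * (Y v - Y z) = F * ((X v - X z) / (X v' - X z) * (Y v' - Y z)) := by
      rw [← hp]
      have : F * ((X v - X z) / (X v' - X z) * (Y v' - Y z)) =
          (X v - X z) / (X v' - X z) * (F * (Y v' - Y z)) := by ring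
      rw [this, ← hp']
      field_simp
    exact mul_left_cancel₀ hF h3

end places

/-- an edge from a vertex of the cell `NE`: the other end is a corner, or in the open quadrant, or
straight below (in `SE`), or straight to the left (in `NW`) -/
theorem quad_NE {H : SimpleGraph V} {X Y : V → ℝ} {E F a b : ℝ} {u u' w w' v v' : V}
    (hd : ADraw H X Y E F) (hk : KN H X Y a b u u' w w') (hv : H.Adj v v') (h : NE X Y v) :
    v' = u ∨ v' = w ∨ (0 < X v' ∧ 0 < Y v') ∨ (X v' = X v ∧ SE X Y b v') ∨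
      (Y v' = Y v ∧ NW X Y a v') := by
  rcases place_NE hd hk hv h with h1 | h1 | h1 | h1 | h1 | h1
  · exact Or.inl h1
  · exact Or.inr (Or.inl h1)
  · exact Or.inr (Or.inr (Or.inl ⟨h1.1, h1.2.1⟩))
  · exact Or.inr (Or.inr (Or.inr (Or.inl h1)))
  · exact Or.inr (Or.inr (Or.inr (Or.inr h1)))
  · exact Or.inr (Or.inr (Or.inl ⟨h.1.trans h1.2.1, h.2.1.trans h1.2.2.1⟩))

/-- the same for a vertex of `SE`; the cell opposite to `NE` is given by its coordinates -/
theorem quad_SE {H : SimpleGraph V} {X Y : V → ℝ} {E F a b : ℝ} {u u' w w' v v' : V}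
    (hd : ADraw H X Y E F) (hk : KN H X Y a b u u' w w') (hs : H.Adj u' w') (hv : H.Adj v v')
    (h : SE X Y b v) :
    v' = u ∨ v' = w' ∨ (0 < X v' ∧ Y v' < 0) ∨ (X v' = X v ∧ NE X Y v') ∨
      (Y v' = Y v ∧ SW X Y a b v') := by
  have hb := hk.b_pos
  rcases quad_NE (ADraw_scaleY hd (neg_ne_zero.2 hb.ne')) (KN_flipY hk hs) hv
    ((NE_flipY hb).2 h) with h1 | h1 | h1 | h1 | h1
  · exact Or.inl h1
  · exact Or.inr (Or.inl h1)
  · exact Or.inr (Or.inr (Or.inl ⟨h1.1, (pos_div_neg_iff hb).1 h1.2⟩))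
  · exact Or.inr (Or.inr (Or.inr (Or.inl ⟨h1.1, (SE_flipY hb).1 h1.2⟩)))
  · refine Or.inr (Or.inr (Or.inr (Or.inr ⟨?_, (NW_flipY hb).1 h1.2⟩)))
    exact (div_left_inj' (neg_ne_zero.2 hb.ne')).1 h1.1

theorem quad_NW {H : SimpleGraph V} {X Y : V → ℝ} {E F a b : ℝ} {u u' w w' v v' : V}
    (hd : ADraw H X Y E F) (hk : KN H X Y a b u u' w w') (hs : H.Adj u' w') (hv : H.Adj v v')
    (h : NW X Y a v) :
    v' = w ∨ v' = u' ∨ (X v' < 0 ∧ 0 < Y v') ∨ (Y v' = Y v ∧ NE X Y v') ∨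
      (X v' = X v ∧ SW X Y a b v') := by
  rcases quad_SE hd.swap hk.swap hs.symm hv h with h1 | h1 | h1 | h1 | h1
  · exact Or.inl h1
  · exact Or.inr (Or.inl h1)
  · exact Or.inr (Or.inr (Or.inl ⟨h1.2, h1.1⟩))
  · exact Or.inr (Or.inr (Or.inr (Or.inl ⟨h1.1, NE_swap.1 h1.2⟩)))
  · exact Or.inr (Or.inr (Or.inr (Or.inr ⟨h1.1, SW_swap.1 h1.2⟩)))

theorem quad_SW {H : SimpleGraph V} {X Y : V → ℝ} {E F a b : ℝ} {u u' w w' v v' : V}
    (hd : ADraw H X Y E F) (hk : KN H X Y a b u u' w w') (hs : H.Adj u' w') (hv : H.Adj v v')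
    (h : SW X Y a b v) :
    v' = u' ∨ v' = w' ∨ (X v' < 0 ∧ Y v' < 0) ∨ (X v' = X v ∧ NW X Y a v') ∨
      (Y v' = Y v ∧ SE X Y b v') := by
  have hb := hk.b_pos
  rcases quad_NW (ADraw_scaleY hd (neg_ne_zero.2 hb.ne')) (KN_flipY hk hs) hk.u'w hv
    ((NW_flipY hb).2 h) with h1 | h1 | h1 | h1 | h1
  · exact Or.inr (Or.inl h1)
  · exact Or.inl h1
  · exact Or.inr (Or.inr (Or.inl ⟨h1.1, (pos_div_neg_iff hb).1 h1.2⟩))
  · refine Or.inr (Or.inr (Or.inr (Or.inr ⟨?_, (NE_flipY hb).1 h1.2⟩)))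
    exact (div_left_inj' (neg_ne_zero.2 hb.ne')).1 h1.1
  · exact Or.inr (Or.inr (Or.inr (Or.inl ⟨h1.1, (SW_flipY hb).1 h1.2⟩)))

/-- a common neighbour of two vertices of a cell is a corner of it or lies in it -/
theorem common_NE' {H : SimpleGraph V} {X Y : V → ℝ} {E F a b : ℝ} {u u' w w' z v v' : V}
    (hd : ADraw H X Y E F) (hk : KN H X Y a b u u' w w') (hv : NE X Y v)
    (hv' : NE X Y v') (hne : v ≠ v') (h1 : H.Adj z v) (h2 : H.Adj z v') :
    z = u ∨ z = w ∨ NE X Y z := by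
  have hv0 := hv
  have hv'0 := hv'
  obtain ⟨a1, a2, a3⟩ := hv
  obtain ⟨b1, b2, b3⟩ := hv'
  rcases place_NE hd hk h1.symm hv0 with c | c | c | c | c | c
  · exact Or.inl c
  · exact Or.inr (Or.inl c)
  · exact Or.inr (Or.inr c)
  · exfalso
    obtain ⟨c1, c2, c3, c4⟩ := c
    rcases place_NE hd hk h2.symm hv'0 with d | d | d | d | d | d
    · rw [d, hk.Yu] at c3; exact lt_irrefl _ c3
    · rw [d, hk.Yw] at c3; linarith
    · linarith [d.2.1]
    · exact ray_x hd h1 h2 hne c1.symm d.1.symm (mul_pos (by linarith) (by linarith))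
    · linarith [d.2.2.1]
    · linarith [d.2.2.1]
  · exfalso
    obtain ⟨c1, c2, c3, c4⟩ := c
    rcases place_NE hd hk h2.symm hv'0 with d | d | d | d | d | d
    · rw [d, hk.Xu] at c3; linarith
    · rw [d, hk.Xw] at c3; exact lt_irrefl _ c3
    · linarith [d.1]
    · linarith [d.2.1]
    · exact ray_y hd h1 h2 hne c1.symm d.1.symm (mul_pos (by linarith) (by linarith))
    · linarith [d.2.1]
  · obtain ⟨c1, c2, c3, c4⟩ := c
    rcases place_NE hd hk h2.symm hv'0 with d | d | d | d | d | d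
    · exact Or.inl d
    · exact Or.inr (Or.inl d)
    · exact Or.inr (Or.inr d)
    · exfalso; linarith [d.2.2.1]
    · exfalso; linarith [d.2.2.1]
    · exfalso
      refine ray_d hd h1 h2 hne (by linarith) (by linarith [d.2.2.2]) ?_
      exact mul_pos_of_neg_of_neg (by linarith) (by linarith [d.2.1])

theorem common_NE {H : SimpleGraph V} {X Y : V → ℝ} {E F a b : ℝ} {u u' w w' z v v' : V}
    (hd : ADraw H X Y E F) (hk : KN H X Y a b u u' w w') (_hs : H.Adj u' w') (hv : NE X Y v)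
    (hv' : NE X Y v') (hne : v ≠ v') (h1 : H.Adj z v) (h2 : H.Adj z v') :
    z = u ∨ z = w ∨ NE X Y z :=
  common_NE' hd hk hv hv' hne h1 h2

theorem common_SW {H : SimpleGraph V} {X Y : V → ℝ} {E F a b : ℝ} {u u' w w' z v v' : V}
    (hd : ADraw H X Y E F) (hk : KN H X Y a b u u' w w') (hs : H.Adj u' w') (hv : SW X Y a b v)
    (hv' : SW X Y a b v') (hne : v ≠ v') (h1 : H.Adj z v) (h2 : H.Adj z v') :
    z = u' ∨ z = w' ∨ SW X Y a b z := by
  have ha := hk.a_pos
  have hb := hk.b_pos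
  have hd1 := ADraw_scaleY hd (neg_ne_zero.2 hb.ne')
  have hd2 := (ADraw_scaleY hd1.swap (neg_ne_zero.2 ha.ne')).swap
  have hk1 := KN_flipY hk hs
  have hk2 := KN_flipX hk1 hk.u'w
  have key : ∀ x : V, NE (fun v => X v / (-a)) (fun v => Y v / (-b)) x ↔ SW X Y a b x := by
    intro x
    rw [NE_flipX ha, NW_flipY hb]
  rcases common_NE' hd2 hk2 ((key v).2 hv) ((key v').2 hv') hne h1 h2 with h | h | h
  · exact Or.inl h
  · exact Or.inr (Or.inl h)
  · exact Or.inr (Or.inr ((key z).1 h))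

/-- a vertical edge which meets the cell `NE` ends in `NE` or `SE` -/
theorem vert_end {H : SimpleGraph V} {X Y : V → ℝ} {E F a b : ℝ} {u u' w w' p p' : V}
    (hd : ADraw H X Y E F) (hk : KN H X Y a b u u' w w') (hp : H.Adj p p') (hx : X p' = X p)
    {s : ℝ} (hs0 : 0 ≤ s) (hs1 : s ≤ 1) (h1 : 0 < X p) (h2 : 0 < (1 - s) * Y p + s * Y p')
    (h3 : X p + ((1 - s) * Y p + s * Y p') < 1) : NE X Y p' ∨ SE X Y b p' := by
  have ha := hk.a_pos
  have hb := hk.b_pos
  have hE := hd.E_pos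
  have hF := hd.F_pos
  have hX1 : X p < 1 := by linarith
  have hpu : p' ≠ u := by rintro rfl; rw [hk.Xu] at hx; linarith
  have hpw : p' ≠ w := by rintro rfl; rw [hk.Xw] at hx; linarith
  have hpw' : p' ≠ w' := by rintro rfl; rw [hk.Xw'] at hx; linarith
  -- the height of the point on the edge at which it meets a line
  have cross : ∀ y₀ : ℝ, ((1 - s) * Y p + s * Y p' < y₀ ∧ y₀ < Y p') ∨
      (y₀ < (1 - s) * Y p + s * Y p' ∧ Y p' < y₀) → Y p' ≠ Y p ∧
      0 < (y₀ - Y p) / (Y p' - Y p) ∧ (y₀ - Y p) / (Y p' - Y p) < 1 := by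
    intro y₀ h
    rcases h with ⟨h4, h5⟩ | ⟨h4, h5⟩
    · have h6 : Y p < Y p' := by
        by_contra hcon
        push Not at hcon
        have : (1 - s) * Y p' ≤ (1 - s) * Y p := mul_le_mul_of_nonneg_left hcon (by linarith)
        linarith
      have h7 : Y p ≤ (1 - s) * Y p + s * Y p' := by
        have : s * Y p ≤ s * Y p' := mul_le_mul_of_nonneg_left h6.le hs0
        linarith
      refine ⟨h6.ne', div_pos (by linarith) (by linarith), ?_⟩
      rw [div_lt_one (by linarith)]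
      linarith
    · have h6 : Y p' < Y p := by
        by_contra hcon
        push Not at hcon
        have : (1 - s) * Y p ≤ (1 - s) * Y p' := mul_le_mul_of_nonneg_left hcon (by linarith)
        linarith
      have h7 : (1 - s) * Y p + s * Y p' ≤ Y p := by
        have : s * Y p' ≤ s * Y p := mul_le_mul_of_nonneg_left h6.le hs0
        linarith
      have e : (y₀ - Y p) / (Y p' - Y p) = (Y p - y₀) / (Y p - Y p') := by
        rw [← neg_sub (Y p) y₀, ← neg_sub (Y p) (Y p'), neg_div_neg_eq]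
      rw [e]
      refine ⟨h6.ne, div_pos (by linarith) (by linarith), ?_⟩
      rw [div_lt_one (by linarith)]
      linarith
  rcases lt_trichotomy (Y p') 0 with h4 | h4 | h4
  · right
    refine ⟨by rw [hx]; exact h1, h4, ?_⟩
    by_contra hcon
    push Not at hcon
    rcases hcon.lt_or_eq with hcon | hcon
    · -- crosses `u w'` at the height `b * X p - b`
      obtain ⟨h5, h6, h7⟩ := cross (b * X p - b) (Or.inr ⟨by
        have : b * (X p - 1) < 0 := mul_neg_of_pos_of_neg hb (by linarith)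
        linarith, by rw [hx] at hcon; linarith⟩)
      have h8 : Y p' - Y p ≠ 0 := sub_ne_zero.2 h5
      have h9 := hd.crs p p' u w' hp hk.uw' (ne_of_right hpu hpw')
        ((b * X p - b - Y p) / (Y p' - Y p)) (1 - X p) h6 h7 (by linarith) (by linarith)
        (by rw [hx, hk.Xu, hk.Xw']; ring)
        (by rw [hk.Yu, hk.Yw']; field_simp; ring)
      rw [hx, sub_self, zero_mul, mul_zero, zero_add, hk.Yu, hk.Yw'] at h9
      have h10 : F * ((Y p' - Y p) * (-b - 0)) ≠ 0 :=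
        mul_ne_zero hF.ne' (mul_ne_zero h8 (by linarith))
      exact h10 h9
    · refine hd.vtx u w' p' hk.uw' hpu hpw' (1 - X p') (by linarith) (by linarith) ?_ ?_
      · rw [hk.Xu, hk.Xw']; ring
      · rw [hk.Yu, hk.Yw']; linarith
  · exact (KN.not_on_u hd hk h4 (by linarith) (by linarith)).elim
  · left
    refine ⟨by rw [hx]; exact h1, h4, ?_⟩
    by_contra hcon
    push Not at hcon
    rcases hcon.lt_or_eq with hcon | hcon
    · obtain ⟨h5, h6, h7⟩ := cross (1 - X p) (Or.inl ⟨by linarith, by linarith⟩)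
      have h8 : Y p' - Y p ≠ 0 := sub_ne_zero.2 h5
      have h9 := KN.cross_s hd hk hp (ne_of_right hpu hpw) (s := (1 - X p - Y p) / (Y p' - Y p))
        (t := 1 - X p) h6 h7 (by linarith) (by linarith) (by rw [hx]; ring)
        (by field_simp; ring)
      rw [hx, sub_self, mul_zero] at h9
      exact mul_ne_zero hF.ne' h8 h9.symm
    · refine hd.vtx u w p' hk.uw hpu hpw (Y p') h4.le (by linarith) ?_ ?_
      · rw [hk.Xu, hk.Xw]; linarith
      · rw [hk.Yu, hk.Yw]; ring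

/-- a horizontal edge which meets the cell `NE` ends in `NE` or `NW` -/
theorem horz_end {H : SimpleGraph V} {X Y : V → ℝ} {E F a b : ℝ} {u u' w w' p p' : V}
    (hd : ADraw H X Y E F) (hk : KN H X Y a b u u' w w') (hp : H.Adj p p') (hy : Y p' = Y p)
    {s : ℝ} (hs0 : 0 ≤ s) (hs1 : s ≤ 1) (h1 : 0 < Y p) (h2 : 0 < (1 - s) * X p + s * X p')
    (h3 : ((1 - s) * X p + s * X p') + Y p < 1) : NE X Y p' ∨ NW X Y a p' := by
  rcases vert_end hd.swap hk.swap hp hy hs0 hs1 h1 h2 (by linarith) with h | h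
  · exact Or.inl (NE_swap.1 h)
  · exact Or.inr h

/-- two adjacent neighbours of a vertex of `NE`, both outside: exactly one is beyond the side -/
theorem pair_NE {H : SimpleGraph V} {X Y : V → ℝ} {E F a b : ℝ} {u u' w w' z₀ z z' : V}
    (hd : ADraw H X Y E F) (hk : KN H X Y a b u u' w w') (hs : H.Adj u' w') (h : NE X Y z₀)
    (h1 : H.Adj z₀ z) (h2 : H.Adj z₀ z') (h12 : H.Adj z z') (n1 : z ≠ u ∧ z ≠ w)
    (n2 : z' ≠ u ∧ z' ≠ w) (m1 : ¬ NE X Y z) (m2 : ¬ NE X Y z') :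
    (1 < X z + Y z ∧ ¬ 1 < X z' + Y z') ∨ (¬ 1 < X z + Y z ∧ 1 < X z' + Y z') := by
  have ha := hk.a_pos
  have hb := hk.b_pos
  have hne := h12.ne
  -- a vertex of `SE` is not adjacent to a vertex of `NW`
  have hse : ∀ x y : V, H.Adj x y → SE X Y b x → NW X Y a y → False := by
    intro x y hxy hx hy
    rcases quad_SE hd hk hs hxy hx with c | c | c | c | c
    · have := hy.2.1
      rw [c, hk.Xu] at this
      linarith
    · have := hy.1
      rw [c, hk.Yw'] at this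
      linarith
    · linarith [hy.1, c.2]
    · linarith [hy.2.1, c.2.1]
    · linarith [hy.1, c.2.2.1]
  have sse : ∀ x : V, SE X Y b x → ¬ 1 < X x + Y x := by
    rintro x ⟨x1, x2, x3⟩ hx
    have : b * (X x - 1) < 0 := by linarith
    have hx' : X x - 1 < 0 := by
      by_contra hcon
      push Not at hcon
      have := mul_nonneg hb.le hcon
      linarith
    linarith
  have snw : ∀ x : V, NW X Y a x → ¬ 1 < X x + Y x := by
    rintro x ⟨x1, x2, x3⟩ hx
    have : a * (Y x - 1) < 0 := by linarith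
    have hx' : Y x - 1 < 0 := by
      by_contra hcon
      push Not at hcon
      have := mul_nonneg ha.le hcon
      linarith
    linarith
  have h0 := h
  obtain ⟨g1, g2, g3⟩ := h0
  rcases place_NE hd hk h1 h with c | c | c | c | c | c
  · exact (n1.1 c).elim
  · exact (n1.2 c).elim
  · exact (m1 c).elim
  · rcases place_NE hd hk h2 h with d | d | d | d | d | d
    · exact (n2.1 d).elim
    · exact (n2.2 d).elim
    · exact (m2 d).elim
    · refine (ray_x hd h1 h2 hne c.1 d.1 ?_).elim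
      exact mul_pos_of_neg_of_neg (by linarith [c.2.2.1]) (by linarith [d.2.2.1])
    · exact (hse z z' h12 c.2 d.2).elim
    · exact Or.inr ⟨sse z c.2, d.1⟩
  · rcases place_NE hd hk h2 h with d | d | d | d | d | d
    · exact (n2.1 d).elim
    · exact (n2.2 d).elim
    · exact (m2 d).elim
    · exact (hse z' z h12.symm d.2 c.2).elim
    · refine (ray_y hd h1 h2 hne c.1 d.1 ?_).elim
      exact mul_pos_of_neg_of_neg (by linarith [c.2.2.1]) (by linarith [d.2.2.1])
    · exact Or.inr ⟨snw z c.2, d.1⟩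
  · rcases place_NE hd hk h2 h with d | d | d | d | d | d
    · exact (n2.1 d).elim
    · exact (n2.2 d).elim
    · exact (m2 d).elim
    · exact Or.inl ⟨c.1, sse z' d.2⟩
    · exact Or.inl ⟨c.1, snw z' d.2⟩
    · refine (ray_d hd h1 h2 hne c.2.2.2 d.2.2.2 ?_).elim
      exact mul_pos (by linarith [c.2.1]) (by linarith [d.2.1])

/-- four pairwise adjacent vertices, one of them in the cell `NE` and the others different from
the corners `u`, `w`: all are in `NE` -/
theorem k4_NE {H : SimpleGraph V} {X Y : V → ℝ} {E F a b : ℝ} {u u' w w' z₀ z₁ z₂ z₃ : V}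
    (hd : ADraw H X Y E F) (hk : KN H X Y a b u u' w w') (hs : H.Adj u' w') (h : NE X Y z₀)
    (h01 : H.Adj z₀ z₁) (h02 : H.Adj z₀ z₂) (h03 : H.Adj z₀ z₃) (h12 : H.Adj z₁ z₂)
    (h13 : H.Adj z₁ z₃) (h23 : H.Adj z₂ z₃) (n1 : z₁ ≠ u ∧ z₁ ≠ w) (n2 : z₂ ≠ u ∧ z₂ ≠ w)
    (n3 : z₃ ≠ u ∧ z₃ ≠ w) : NE X Y z₁ := by
  by_contra m1
  have m2 : ¬ NE X Y z₂ := by
    intro m
    rcases common_NE' hd hk h m h02.ne h01.symm h12 with c | c | c
    · exact n1.1 c
    · exact n1.2 c
    · exact m1 c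
  have m3 : ¬ NE X Y z₃ := by
    intro m
    rcases common_NE' hd hk h m h03.ne h01.symm h13 with c | c | c
    · exact n1.1 c
    · exact n1.2 c
    · exact m1 c
  have p12 := pair_NE hd hk hs h h01 h02 h12 n1 n2 m1 m2
  have p13 := pair_NE hd hk hs h h01 h03 h13 n1 n3 m1 m3
  have p23 := pair_NE hd hk hs h h02 h03 h23 n2 n3 m2 m3
  tauto

/-- the same in a drawing `f` -/
theorem k4_cell {H : SimpleGraph V} {f : V → ℂ} (hf : IsRAC H f) {u u' w w' z₀ z₁ z₂ z₃ : V}
    {q : ℂ} (hk : Kite H f u u' w w' q) (h : Tri q (f u) (f w) (f z₀))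
    (h01 : H.Adj z₀ z₁) (h02 : H.Adj z₀ z₂) (h03 : H.Adj z₀ z₃) (h12 : H.Adj z₁ z₂)
    (h13 : H.Adj z₁ z₃) (h23 : H.Adj z₂ z₃) (n1 : z₁ ≠ u ∧ z₁ ≠ w) (n2 : z₂ ≠ u ∧ z₂ ≠ w)
    (n3 : z₃ ≠ u ∧ z₃ ≠ w) : Tri q (f u) (f w) (f z₁) := by
  obtain ⟨X, Y, E, F, a, b, hd, hn, hT, -⟩ := hk.coords hf
  rw [hT] at h ⊢
  exact k4_NE (X := fun v => X (f v)) (Y := fun v => Y (f v)) hd hn hk.u'w' h h01 h02 h03 h12
    h13 h23 n1 n2 n3

end Pool.Agent.Helper82.DG
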