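import Pool.Agent.Helper84.DG.Quad
import Pool.Agent.Helper18.RAC.Local3

/-!
# The place of the frame of a grid in a monotone window
-/

set_option autoImplicit false

namespace Pool.Agent.Helper82.DG

open Pool.Agent.Helper18.RAC Complex

variable {V : Type*}

section

variable {H : SimpleGraph V} {f : V → ℂ} {a b v v' x : V} {w c : ℤ → V} {q : ℤ → ℂ}
  {s δ : ℤ} {κ : Bool}

/-- a step to a vertex which is not a corner -/
theorem win_stepz (h : WinR H f a b w c q 20) (hδ : δ = 1 ∨ δ = -1)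
    (h1 : -17 ≤ s) (h2 : s ≤ 17) (hv : H.Adj v v') (hc : Cell f w c q s δ κ (f v))
    (hv' : v' ≠ a ∧ v' ≠ b ∧ ∀ t, -20 ≤ t → t ≤ 20 → v' ≠ w t) :
    ∃ s' δ' κ', Rel s δ κ s' δ' κ' ∧ (δ' = 1 ∨ δ' = -1) ∧ s - 2 ≤ s' ∧ s' ≤ s + 2 ∧
      Cell f w c q s' δ' κ' (f v') := by
  rcases h.step hδ (by omega) (by omega) hv hc with h3 | h3 | ⟨s', δ', κ', h3, h4⟩
  · exact absurd h3 (hv'.2.2 _ (by omega) (by omega))
  · cases κ with
    | false => exact absurd h3 (hv'.2.2 _ (by omega) (by omega))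
    | true =>
      exfalso
      simp only [cond_true] at h3
      rcases h.cab s (by omega) (by omega) with e | e
      · exact hv'.1 (h3.trans e)
      · exact hv'.2.1 (h3.trans e)
  · exact ⟨s', δ', κ', h3, h3.pm hδ, (h3.bd hδ).1, (h3.bd hδ).2, h4⟩

/-- a step to the path vertex `w t` -/
theorem win_stepw (h : WinR H f a b w c q 20)
    (winj : ∀ s s', -20 ≤ s → s ≤ 20 → -20 ≤ s' → s' ≤ 20 → w s = w s' → s = s')
    (hδ : δ = 1 ∨ δ = -1) (h1 : -15 ≤ s) (h2 : s ≤ 15) {t : ℤ} (ht1 : -15 ≤ t) (ht2 : t ≤ 15)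
    (hv : H.Adj v (w t)) (hc : Cell f w c q s δ κ (f v)) : t = s + δ ∨ (κ = false ∧ t = s) := by
  rcases h.stepw hδ h1 h2 hv hc (h.adja t (by omega) (by omega))
    (h.adjb t (by omega) (by omega)) with h3 | ⟨h3, h4⟩
  · exact Or.inl (winj _ _ (by omega) (by omega) (by omega) (by omega) h3)
  · exact Or.inr ⟨h3, winj _ _ (by omega) (by omega) (by omega) (by omega) h4⟩

/-- a complete graph on four vertices which are not corners lies in one cell -/
theorem win_k4 (h : WinR H f a b w c q 20) (hδ : δ = 1 ∨ δ = -1) {z₀ z₁ z₂ z₃ : V}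
    (hc : Cell f w c q 0 δ κ (f z₀)) (h01 : H.Adj z₀ z₁) (h02 : H.Adj z₀ z₂)
    (h03 : H.Adj z₀ z₃) (h12 : H.Adj z₁ z₂) (h13 : H.Adj z₁ z₃) (h23 : H.Adj z₂ z₃)
    (n1 : z₁ ≠ a ∧ z₁ ≠ b ∧ ∀ t, -20 ≤ t → t ≤ 20 → z₁ ≠ w t)
    (n2 : z₂ ≠ a ∧ z₂ ≠ b ∧ ∀ t, -20 ≤ t → t ≤ 20 → z₂ ≠ w t)
    (n3 : z₃ ≠ a ∧ z₃ ≠ b ∧ ∀ t, -20 ≤ t → t ≤ 20 → z₃ ≠ w t) :
    Cell f w c q 0 δ κ (f z₁) := by
  have key : ∀ z : V, (z ≠ a ∧ z ≠ b ∧ ∀ t, -20 ≤ t → t ≤ 20 → z ≠ w t) →
      z ≠ w (0 + δ) ∧ z ≠ cond κ (c 0) (w 0) := by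
    intro z hz
    refine ⟨hz.2.2 _ (by omega) (by omega), ?_⟩
    cases κ with
    | false => exact hz.2.2 _ (by omega) (by omega)
    | true =>
      intro e
      simp only [cond_true] at e
      rcases h.cab 0 (by omega) (by omega) with e' | e'
      · exact hz.1 (e.trans e')
      · exact hz.2.1 (e.trans e')
  exact k4_cell h.rac (h.ck hδ κ (by omega) (show (0 : ℤ) < 20 by omega)) hc h01 h02 h03 h12 h13
    h23 (key z₁ n1) (key z₂ n2) (key z₃ n3)

/-- a chain of complete graphs on four vertices -/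
theorem win_chain (h : WinR H f a b w c q 20) (hδ : δ = 1 ∨ δ = -1) {n : ℕ} {P : ℕ → V}
    {C : ℕ → Bool → V} (hP : ∀ j, j < n → P j ≠ a ∧ P j ≠ b ∧ ∀ t, -20 ≤ t → t ≤ 20 → P j ≠ w t)
    (hC : ∀ j ε, j + 1 < n → C j ε ≠ a ∧ C j ε ≠ b ∧ ∀ t, -20 ≤ t → t ≤ 20 → C j ε ≠ w t)
    (pp : ∀ j, j + 1 < n → H.Adj (P j) (P (j + 1)))
    (pc : ∀ j ε, j + 1 < n → H.Adj (P j) (C j ε))
    (pc' : ∀ j ε, j + 1 < n → H.Adj (P (j + 1)) (C j ε))
    (cc : ∀ j, j + 1 < n → H.Adj (C j false) (C j true)) {j₀ : ℕ} (hj₀ : j₀ < n)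
    (h0 : Cell f w c q 0 δ κ (f (P j₀))) :
    (∀ j, j < n → Cell f w c q 0 δ κ (f (P j))) ∧
      ∀ j ε, j + 1 < n → Cell f w c q 0 δ κ (f (C j ε)) := by
  have up : ∀ j, j + 1 < n → Cell f w c q 0 δ κ (f (P j)) →
      Cell f w c q 0 δ κ (f (P (j + 1))) := fun j hj hc =>
    win_k4 h hδ hc (pp j hj) (pc j false hj) (pc j true hj) (pc' j false hj) (pc' j true hj)
      (cc j hj) (hP _ hj) (hC j false hj) (hC j true hj)
  have dn : ∀ j, j + 1 < n → Cell f w c q 0 δ κ (f (P (j + 1))) →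
      Cell f w c q 0 δ κ (f (P j)) := fun j hj hc =>
    win_k4 h hδ hc (pp j hj).symm (pc' j false hj) (pc' j true hj) (pc j false hj) (pc j true hj)
      (cc j hj) (hP j (by omega)) (hC j false hj) (hC j true hj)
  have above : ∀ d, j₀ + d < n → Cell f w c q 0 δ κ (f (P (j₀ + d))) := by
    intro d
    induction d with
    | zero => exact fun _ => h0
    | succ d ih => exact fun hd => up (j₀ + d) (by omega) (ih (by omega))
  have below : ∀ d j, j + d = j₀ → Cell f w c q 0 δ κ (f (P j)) := by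
    intro d
    induction d with
    | zero =>
      intro j hj
      rw [add_zero] at hj
      rw [hj]
      exact h0
    | succ d ih => exact fun j hj => dn j (by omega) (ih (j + 1) (by omega))
  have all : ∀ j, j < n → Cell f w c q 0 δ κ (f (P j)) := by
    intro j hj
    rcases Nat.lt_or_ge j j₀ with h1 | h1
    · exact below (j₀ - j) j (by omega)
    · have := above (j - j₀) (by omega)
      rwa [show j₀ + (j - j₀) = j by omega] at this
  refine ⟨all, fun j ε hj => ?_⟩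
  cases ε with
  | false =>
    exact win_k4 h hδ (all j (by omega)) (pc j false hj) (pp j hj) (pc j true hj)
      (pc' j false hj).symm (cc j hj) (pc' j true hj) (hC j false hj) (hP _ hj) (hC j true hj)
  | true =>
    exact win_k4 h hδ (all j (by omega)) (pc j true hj) (pp j hj) (pc j false hj)
      (pc' j true hj).symm (cc j hj).symm (pc' j false hj) (hC j true hj) (hP _ hj)
      (hC j false hj)

end

theorem frame_of_win {H : SimpleGraph V} {f : V → ℂ} {a b : V} {w c : ℤ → V} {q : ℤ → ℂ}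
    (h : WinR H f a b w c q 20) {κ : GX → V} {M : ℕ} (hg : HasGrid H κ M) {δ : ℤ}
    (hδ : δ = 1 ∨ δ = -1) (hE : κ (.X true) = w δ) (hW : κ (.Y true) = w (-δ))
    (hS : κ (.Y false) = w 0) (hN : κ (.X false) = a ∨ κ (.X false) = b)
    (winj : ∀ s s', -20 ≤ s → s ≤ 20 → -20 ≤ s' → s' ≤ 20 → w s = w s' → s = s')
    (hnc : ∀ x : GN, x.ok M → κ (.v x) ≠ a ∧ κ (.v x) ≠ b ∧
      ∀ s, -20 ≤ s → s ≤ 20 → κ (.v x) ≠ w s) :
    κ (.X false) = c 0 ∧
      (∀ σ i, i < M → Cell f w c q 0 δ true (f (κ (.v (.U σ i))))) ∧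
      (∀ j, j < 2 * M → Cell f w c q 0 δ false (f (κ (.v (.P false j))))) ∧
      (∀ j ε, j + 1 < 2 * M → Cell f w c q 0 δ false (f (κ (.v (.C false j ε))))) ∧
      (∀ j, j < 2 * M → Cell f w c q 0 (-δ) true (f (κ (.v (.P true j))))) ∧
      (∀ j ε, j + 1 < 2 * M → Cell f w c q 0 (-δ) true (f (κ (.v (.C true j ε))))) ∧
      Cell f w c q 0 δ true (f (κ (.v (.D (M - 1) (M - 1))))) := by
  have hM := hg.hM
  have hδ' : -δ = 1 ∨ -δ = -1 := by omega
  -- the edges of the frame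
  have eyp : ∀ σ j, j < 2 * M → H.Adj (κ (.Y σ)) (κ (.v (.P σ j))) := fun σ j hj =>
    hg.adj (.yp σ j) hj
  have exu : ∀ σ i, i < M → H.Adj (κ (.X σ)) (κ (.v (.U σ i))) := fun σ i hi =>
    hg.adj (.xu σ i) hi
  have eup : ∀ σ i, i < M → H.Adj (κ (.v (.U σ i))) (κ (.v (.P σ (2 * i)))) := fun σ i hi =>
    hg.adj (.up σ i) hi
  have epp : ∀ σ j, j + 1 < 2 * M → H.Adj (κ (.v (.P σ j))) (κ (.v (.P σ (j + 1)))) :=
    fun σ j hj => hg.adj (.pp σ j) hj
  have epc : ∀ σ j ε, j + 1 < 2 * M → H.Adj (κ (.v (.P σ j))) (κ (.v (.C σ j ε))) :=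
    fun σ j ε hj => hg.adj (.pc σ j ε) hj
  have epc' : ∀ σ j ε, j + 1 < 2 * M → H.Adj (κ (.v (.P σ (j + 1)))) (κ (.v (.C σ j ε))) :=
    fun σ j ε hj => hg.adj (.pc' σ j ε) hj
  have ecc : ∀ σ j, j + 1 < 2 * M → H.Adj (κ (.v (.C σ j false))) (κ (.v (.C σ j true))) :=
    fun σ j hj => hg.adj (.cc σ j) hj
  have euu : H.Adj (κ (.v (.U false (M - 1)))) (κ (.v (.U true (M - 1)))) := hg.adj .uu trivial
  have euq : ∀ σ, H.Adj (κ (.v (.U σ (M - 1)))) (κ (.v .Q)) := fun σ => hg.adj (.uq σ) trivial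
  have eud : ∀ σ, H.Adj (κ (.v (.U σ (M - 1)))) (κ (.v (.D (M - 1) (M - 1)))) := fun σ =>
    hg.adj (.ud σ) trivial
  have eqd : H.Adj (κ (.v .Q)) (κ (.v (.D (M - 1) (M - 1)))) := hg.adj .qd trivial
  -- the vertices are not corners
  have nU : ∀ σ i, i < M → _ := fun σ i hi => hnc (.U σ i) hi
  have nP : ∀ σ j, j < 2 * M → _ := fun σ j hj => hnc (.P σ j) hj
  have nC : ∀ σ j ε, j + 1 < 2 * M → _ := fun σ j ε hj => hnc (.C σ j ε) hj
  have nQ := hnc .Q trivial
  have nD := hnc (.D (M - 1) (M - 1)) ⟨by omega, by omega⟩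
  -- step 2: the vertex `U true (M - 1)`
  obtain ⟨k₁, hR⟩ : ∃ k₁, Cell f w c q 0 δ k₁ (f (κ (.v (.U true (M - 1))))) := by
    have e1 := exu true (M - 1) (by omega)
    rw [hE] at e1
    have n1 := nU true (M - 1) (by omega)
    rcases h.around (t := δ) (by omega) (by omega) e1 with e | e | e | e | e | e |
      ⟨s₁, δ₁, k₁, h1, h2, hδ₁, h3, hc⟩
    · exact absurd e (n1.2.2 _ (by omega) (by omega))
    · exact absurd e (n1.2.2 _ (by omega) (by omega))
    · exact absurd e (n1.2.2 _ (by omega) (by omega))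
    · exact absurd e (n1.2.2 _ (by omega) (by omega))
    · exact absurd e n1.1
    · exact absurd e n1.2.1
    · obtain ⟨s', δ', k', hr, hδ'', hb1, hb2, hc'⟩ := win_stepz h hδ₁ (by omega) (by omega)
        (eup true (M - 1) (by omega)) hc (nP true (2 * (M - 1)) (by omega))
      have e2 := (eyp true (2 * (M - 1)) (by omega)).symm
      rw [hW] at e2
      have h4 := win_stepw h winj hδ'' (by omega) (by omega) (by omega) (by omega) e2 hc'
      refine ⟨k₁, ?_⟩
      have h5 : s₁ = 0 ∧ δ₁ = δ := by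
        rcases hr with ⟨r1, r2⟩ | ⟨r1, r2, r3⟩ | ⟨r1, r2, r3, r4⟩ | ⟨r1, r2, r3, r4⟩
        · rcases h3 with h3 | ⟨h3, -⟩ <;> rcases h4 with h4 | ⟨-, h4⟩ <;> omega
        · rcases h3 with h3 | ⟨h3, -⟩ <;> rcases h4 with h4 | ⟨-, h4⟩ <;> omega
        · rcases h3 with h3 | ⟨h3, -⟩ <;> rcases h4 with h4 | ⟨-, h4⟩ <;> omega
        · rcases h4 with h4 | ⟨h4, -⟩
          · rcases h3 with h3 | ⟨-, h3⟩
            · omega
            · rw [r1] at h3; exact absurd h3 (by decide)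
          · rw [r2] at h4; exact absurd h4 (by decide)
      rw [h5.1, h5.2] at hc
      exact hc
  -- step 3: the complete graph at the far corner
  have hT : Cell f w c q 0 δ k₁ (f (κ (.v (.U false (M - 1))))) :=
    win_k4 h hδ hR euu.symm (euq true) (eud true) (euq false) (eud false) eqd
      (nU false _ (by omega)) nQ nD
  have hD1 : Cell f w c q 0 δ k₁ (f (κ (.v (.D (M - 1) (M - 1))))) :=
    win_k4 h hδ hR (eud true) (euq true) euu.symm eqd.symm (eud false).symm (euq false).symm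
      nD nQ (nU false _ (by omega))
  obtain ⟨hk₁, hNc⟩ := h.steph hδ (by omega) (by omega)
    (exu false (M - 1) (by omega)).symm hT hN
  rw [hk₁] at hR hT hD1
  -- step 4: the lower vertices
  have hP0 : Cell f w c q 0 δ false (f (κ (.v (.P false (2 * (M - 1)))))) := by
    obtain ⟨s', δ', k', hr, hδ'', hb1, hb2, hc'⟩ := win_stepz h hδ (by omega) (by omega)
      (eup false (M - 1) (by omega)) hT (nP false (2 * (M - 1)) (by omega))
    have e2 := (eyp false (2 * (M - 1)) (by omega)).symm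
    rw [hS] at e2
    have h4 := win_stepw h winj hδ'' (by omega) (by omega) (by omega) (by omega) e2 hc'
    rcases hr with ⟨r1, r2⟩ | ⟨r1, r2, r3⟩ | ⟨r1, r2, r3, r4⟩ | ⟨r1, r2, r3, r4⟩
    · rcases h4 with h4 | ⟨h4, -⟩
      · omega
      · rw [r1, r2, h4] at hc'
        exact hc'
    · rcases h4 with h4 | ⟨h4, -⟩
      · omega
      · rw [r3] at h4; exact absurd h4 (by decide)
    · exact absurd r1 (by decide)
    · rcases h4 with h4 | ⟨h4, -⟩
      · omega
      · rw [r2] at h4; exact absurd h4 (by decide)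
  obtain ⟨aP0, aC0⟩ := win_chain h hδ (n := 2 * M) (P := fun j => κ (.v (.P false j)))
    (C := fun j ε => κ (.v (.C false j ε))) (nP false) (nC false) (epp false) (epc false)
    (epc' false) (ecc false) (j₀ := 2 * (M - 1)) (by omega) hP0
  -- step 5: the left vertices
  have hP1 : Cell f w c q 0 (-δ) true (f (κ (.v (.P true (2 * (M - 1)))))) := by
    obtain ⟨s', δ', k', hr, hδ'', hb1, hb2, hc'⟩ := win_stepz h hδ (by omega) (by omega)
      (eup true (M - 1) (by omega)) hR (nP true (2 * (M - 1)) (by omega))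
    have e2 := (eyp true (2 * (M - 1)) (by omega)).symm
    rw [hW] at e2
    have h4 := win_stepw h winj hδ'' (by omega) (by omega) (by omega) (by omega) e2 hc'
    rcases hr with ⟨r1, r2⟩ | ⟨r1, r2, r3⟩ | ⟨r1, r2, r3, r4⟩ | ⟨r1, r2, r3, r4⟩
    · rcases h4 with h4 | ⟨-, h4⟩ <;> omega
    · rw [r1, r2, r3] at hc'
      exact hc'
    · exact absurd r1 (by decide)
    · rcases h4 with h4 | ⟨h4, -⟩
      · omega
      · rw [r2] at h4; exact absurd h4 (by decide)
  obtain ⟨aP1, aC1⟩ := win_chain h hδ' (n := 2 * M) (P := fun j => κ (.v (.P true j)))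
    (C := fun j ε => κ (.v (.C true j ε))) (nP true) (nC true) (epp true) (epc true)
    (epc' true) (ecc true) (j₀ := 2 * (M - 1)) (by omega) hP1
  refine ⟨hNc, fun σ i hi => ?_, aP0, aC0, aP1, aC1, hD1⟩
  cases σ with
  | false =>
    obtain ⟨s', δ', k', hr, hδ'', hb1, hb2, hc'⟩ := win_stepz h hδ (by omega) (by omega)
      (eup false i hi).symm (aP0 (2 * i) (by omega)) (nU false i hi)
    obtain ⟨h4, -⟩ := h.steph hδ'' (by omega) (by omega) (exu false i hi).symm hc' hN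
    rcases hr with ⟨r1, r2⟩ | ⟨r1, r2, r3⟩ | ⟨r1, r2, r3, r4⟩ | ⟨r1, r2, r3, r4⟩
    · rw [r1, r2, h4] at hc'
      exact hc'
    · rw [r3] at h4; exact absurd h4 (by decide)
    · rw [r2] at h4; exact absurd h4 (by decide)
    · exact absurd r1 (by decide)
  | true =>
    obtain ⟨s', δ', k', hr, hδ'', hb1, hb2, hc'⟩ := win_stepz h hδ' (by omega) (by omega)
      (eup true i hi).symm (aP1 (2 * i) (by omega)) (nU true i hi)
    have e2 := (exu true i hi).symm
    rw [hE] at e2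
    have h4 := win_stepw h winj hδ'' (by omega) (by omega) (by omega) (by omega) e2 hc'
    rcases hr with ⟨r1, r2⟩ | ⟨r1, r2, r3⟩ | ⟨r1, r2, r3, r4⟩ | ⟨r1, r2, r3, r4⟩
    · rcases h4 with h4 | ⟨-, h4⟩ <;> omega
    · rw [r1, r2, r3, neg_neg] at hc'
      exact hc'
    · exact absurd r1 (by decide)
    · rcases h4 with h4 | ⟨h4, -⟩
      · omega
      · rw [r2] at h4; exact absurd h4 (by decide)

end Pool.Agent.Helper82.DG
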